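import Pool.Agent.helper11.TX.Spec

/-!
# Row EE of the project TX (MP_bf63dc_nt): the large primes contribute `C/w`
-/

set_option autoImplicit false

namespace Pool.Agent.helper11.TX

open Finset

/-- The primes in `(w, X]`. -/
def EE_P (w X : ℕ) : Finset ℕ := (Icc 1 X).filter fun l => l.Prime ∧ w < l

/-- The product of `1/(l-2)`. -/
noncomputable def EE_h (T : Finset ℕ) : ℝ := ∏ l ∈ T, 1 / ((l : ℝ) - 2)

theorem EE_h_nonneg {w X : ℕ} (hw : 3 ≤ w) {T : Finset ℕ} (hT : T ⊆ EE_P w X) : 0 ≤ EE_h T := by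
  unfold EE_h
  refine prod_nonneg fun l hl => ?_
  have h1 := hT hl
  unfold EE_P at h1
  rw [mem_filter] at h1
  have h2 : (3 : ℝ) < l := by exact_mod_cast (lt_of_le_of_lt hw h1.2.2)
  exact div_nonneg zero_le_one (by linarith)

theorem EE_prod_pos {w X : ℕ} {T : Finset ℕ} (hT : T ⊆ EE_P w X) : 0 < ∏ l ∈ T, l := by
  refine prod_pos fun l hl => ?_
  have h1 := hT hl
  unfold EE_P at h1
  rw [mem_filter] at h1
  exact h1.2.1.pos

theorem EE_er (w X n : ℕ) (hn : n ≠ 0) (hX : n ≤ X) :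
    Er w n = ∑ T ∈ (EE_P w X).powerset, if (∏ l ∈ T, l) ∣ n then EE_h T else 0 := by
  classical
  unfold Er
  rw [prod_one_add, ← sum_filter]
  have h1 : (n.primeFactors.filter fun l => w < l).powerset =
      (EE_P w X).powerset.filter fun T => (∏ l ∈ T, l) ∣ n := by
    ext T
    rw [mem_filter, mem_powerset, mem_powerset]
    constructor
    · intro hT
      constructor
      · intro l hl
        have h2 := hT hl
        rw [mem_filter] at h2
        have h3 := Nat.prime_of_mem_primeFactors h2.1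
        have h4 := Nat.dvd_of_mem_primeFactors h2.1
        unfold EE_P
        rw [mem_filter, mem_Icc]
        exact ⟨⟨h3.pos, (Nat.le_of_dvd (Nat.pos_of_ne_zero hn) h4).trans hX⟩, h3, h2.2⟩
      · refine dvd_trans (prod_dvd_prod_of_subset T n.primeFactors (fun l => l) ?_)
          (Nat.prod_primeFactors_dvd n)
        exact hT.trans (filter_subset _ _)
    · rintro ⟨hT, hd⟩ l hl
      have h2 := hT hl
      unfold EE_P at h2
      rw [mem_filter] at h2
      rw [mem_filter, Nat.mem_primeFactors]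
      exact ⟨⟨h2.2.1, (dvd_prod_of_mem (fun l => l) hl).trans hd, hn⟩, h2.2.2⟩
  rw [h1]
  rfl

theorem EE_B (w X : ℕ) (hw : 3 ≤ w) :
    ∏ l ∈ EE_P w X, (1 + 1 / ((l : ℝ) - 2) * (1 / (l : ℝ))) ≤ 1 + 1 / ((w : ℝ) - 1) := by
  have hw' : (3 : ℝ) ≤ w := by exact_mod_cast hw
  have key : ∀ X : ℕ, w ≤ X → ∏ l ∈ EE_P w X, (1 + 1 / ((l : ℝ) - 2) * (1 / (l : ℝ))) ≤
      (w : ℝ) * (X - 1) / (X * (w - 1)) := by
    intro X hX
    induction X, hX using Nat.le_induction with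
    | base =>
      have h1 : EE_P w w = ∅ := by
        unfold EE_P
        rw [filter_eq_empty_iff]
        intro l hl h2
        rw [mem_Icc] at hl
        omega
      rw [h1, prod_empty, le_div_iff₀ (by nlinarith)]
      linarith
    | succ X hX ih =>
      have hX' : (3 : ℝ) ≤ X := by
        have : 3 ≤ X := hw.trans hX
        exact_mod_cast this
      have hf : (0 : ℝ) ≤ 1 / (((X + 1 : ℕ) : ℝ) - 2) * (1 / ((X + 1 : ℕ) : ℝ)) := by
        push_cast
        refine mul_nonneg (div_nonneg zero_le_one (by linarith)) (by positivity)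
      have hpos : 0 ≤ ∏ l ∈ EE_P w X, (1 + 1 / ((l : ℝ) - 2) * (1 / (l : ℝ))) := by
        refine prod_nonneg fun l hl => ?_
        unfold EE_P at hl
        rw [mem_filter] at hl
        have h2 : (3 : ℝ) < l := by exact_mod_cast (lt_of_le_of_lt hw hl.2.2)
        have h3 : 0 ≤ 1 / ((l : ℝ) - 2) := div_nonneg zero_le_one (by linarith)
        positivity
      have h1 : ∏ l ∈ EE_P w (X + 1), (1 + 1 / ((l : ℝ) - 2) * (1 / (l : ℝ))) ≤
          (∏ l ∈ EE_P w X, (1 + 1 / ((l : ℝ) - 2) * (1 / (l : ℝ)))) *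
            (1 + 1 / (((X + 1 : ℕ) : ℝ) - 2) * (1 / ((X + 1 : ℕ) : ℝ))) := by
        have hI : Icc 1 (X + 1) = insert (X + 1) (Icc 1 X) := by
          ext l
          rw [mem_insert, mem_Icc, mem_Icc]
          omega
        by_cases hp : (X + 1).Prime
        · have h2 : EE_P w (X + 1) = insert (X + 1) (EE_P w X) := by
            unfold EE_P
            rw [hI, filter_insert, if_pos ⟨hp, by omega⟩]
          have h3 : (X + 1) ∉ EE_P w X := by
            unfold EE_P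
            rw [mem_filter, mem_Icc]
            omega
          rw [h2, prod_insert h3, mul_comm]
        · have h2 : EE_P w (X + 1) = EE_P w X := by
            unfold EE_P
            rw [hI, filter_insert, if_neg (fun h => hp h.1)]
          rw [h2]
          nlinarith
      refine h1.trans ?_
      calc (∏ l ∈ EE_P w X, (1 + 1 / ((l : ℝ) - 2) * (1 / (l : ℝ)))) *
            (1 + 1 / (((X + 1 : ℕ) : ℝ) - 2) * (1 / ((X + 1 : ℕ) : ℝ))) ≤
          ((w : ℝ) * (X - 1) / (X * (w - 1))) *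
            (1 + 1 / (((X + 1 : ℕ) : ℝ) - 2) * (1 / ((X + 1 : ℕ) : ℝ))) :=
            mul_le_mul_of_nonneg_right ih (by linarith)
        _ = (w : ℝ) * (((X + 1 : ℕ) : ℝ) - 1) / (((X + 1 : ℕ) : ℝ) * (w - 1)) := by
            push_cast
            have e1 : (X : ℝ) ≠ 0 := by linarith
            have e2 : (w : ℝ) - 1 ≠ 0 := by linarith
            have e3 : (X : ℝ) + 1 ≠ 0 := by linarith
            have e4 : (X : ℝ) + 1 - 2 ≠ 0 := by linarith
            have e5 : (X : ℝ) - 1 = (X : ℝ) + 1 - 2 := by ring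
            rw [e5]
            field_simp
            ring
  by_cases hX : w ≤ X
  · refine (key X hX).trans ?_
    have hX' : (3 : ℝ) ≤ X := by
      have : 3 ≤ X := hw.trans hX
      exact_mod_cast this
    have e1 : (0 : ℝ) < w - 1 := by linarith
    have e2 : (1 : ℝ) + 1 / (w - 1) = w / (w - 1) := by
      field_simp
      ring
    rw [e2, div_le_div_iff₀ (by positivity) e1]
    have : (0 : ℝ) ≤ w * (w - 1) := by positivity
    nlinarith
  · have h1 : EE_P w X = ∅ := by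
      unfold EE_P
      rw [filter_eq_empty_iff]
      intro l hl h2
      rw [mem_Icc] at hl
      omega
    rw [h1, prod_empty]
    have : 0 ≤ 1 / ((w : ℝ) - 1) := div_nonneg zero_le_one (by linarith)
    linarith

theorem EE_sumT (w X : ℕ) :
    ∑ T ∈ (EE_P w X).powerset, EE_h T * (1 / ((∏ l ∈ T, l : ℕ) : ℝ)) =
      ∏ l ∈ EE_P w X, (1 + 1 / ((l : ℝ) - 2) * (1 / (l : ℝ))) := by
  rw [prod_one_add]
  refine sum_congr rfl fun T _ => ?_
  unfold EE_h
  rw [prod_mul_distrib]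
  congr 1
  rw [Nat.cast_prod, prod_div_distrib, prod_const_one]

/-- the harmonic sum -/
noncomputable def EE_H (N : ℕ) : ℝ := ∑ a ∈ Icc 1 N, 1 / (a : ℝ)

theorem EE_H_mono {m n : ℕ} (h : m ≤ n) : EE_H m ≤ EE_H n := by
  unfold EE_H
  refine sum_le_sum_of_subset_of_nonneg (Icc_subset_Icc_right h) fun _ _ _ => by positivity

theorem EE_H_le (N : ℕ) : EE_H N ≤ 1 + Real.log N := by
  have h1 := harmonic_le_one_add_log N
  rw [harmonic_eq_sum_Icc] at h1
  push_cast at h1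
  unfold EE_H
  refine le_trans (le_of_eq ?_) h1
  refine sum_congr rfl fun a _ => ?_
  rw [one_div]

theorem EE_H_nonneg (N : ℕ) : 0 ≤ EE_H N := sum_nonneg fun _ _ => by positivity

theorem EE_div (N d : ℕ) (hd : 0 < d) :
    ∑ a ∈ (Icc 1 N).filter (fun a => d ∣ a), 1 / (a : ℝ) ≤ 1 / (d : ℝ) * EE_H N := by
  have h1 : (Icc 1 N).filter (fun a => d ∣ a) = (Icc 1 (N / d)).image (fun k => d * k) := by
    ext a
    rw [mem_filter, mem_Icc, mem_image]
    constructor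
    · rintro ⟨⟨h1, h2⟩, k, rfl⟩
      refine ⟨k, ?_, rfl⟩
      rw [mem_Icc]
      constructor
      · exact Nat.pos_of_mul_pos_left h1 |> fun h => by
          rcases Nat.eq_zero_or_pos k with rfl | hk
          · simp at h1
          · exact hk
      · rw [Nat.le_div_iff_mul_le hd, mul_comm]
        exact h2
    · rintro ⟨k, hk, rfl⟩
      rw [mem_Icc] at hk
      refine ⟨⟨Nat.mul_pos hd hk.1, ?_⟩, dvd_mul_right _ _⟩
      have := hk.2
      rw [Nat.le_div_iff_mul_le hd, mul_comm] at this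
      exact this
  rw [h1, sum_image (fun x _ y _ h => Nat.eq_of_mul_eq_mul_left hd h)]
  have h2 : ∑ k ∈ Icc 1 (N / d), 1 / ((d * k : ℕ) : ℝ) = 1 / (d : ℝ) * EE_H (N / d) := by
    unfold EE_H
    rw [mul_sum]
    refine sum_congr rfl fun k _ => ?_
    push_cast
    rw [one_div_mul_one_div]
  rw [h2]
  exact mul_le_mul_of_nonneg_left (EE_H_mono (Nat.div_le_self _ _)) (by positivity)

theorem EE_suma (w N : ℕ) (hw : 3 ≤ w) :
    ∑ a ∈ Icc 1 N, Er w a * (1 / (a : ℝ)) ≤ (1 + 1 / ((w : ℝ) - 1)) * EE_H N := by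
  have h1 : ∑ a ∈ Icc 1 N, Er w a * (1 / (a : ℝ)) =
      ∑ T ∈ (EE_P w N).powerset, EE_h T *
        ∑ a ∈ (Icc 1 N).filter (fun a => (∏ l ∈ T, l) ∣ a), 1 / (a : ℝ) := by
    have h2 : ∀ a ∈ Icc 1 N, Er w a * (1 / (a : ℝ)) =
        ∑ T ∈ (EE_P w N).powerset, (if (∏ l ∈ T, l) ∣ a then EE_h T * (1 / (a : ℝ)) else 0) := by
      intro a ha
      rw [mem_Icc] at ha
      rw [EE_er w N a (by omega) ha.2, sum_mul]
      refine sum_congr rfl fun T _ => ?_
      rw [ite_mul, zero_mul]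
    rw [sum_congr rfl h2, sum_comm]
    refine sum_congr rfl fun T _ => ?_
    rw [mul_sum, sum_filter]
  rw [h1]
  have h3 : ∑ T ∈ (EE_P w N).powerset, EE_h T *
        ∑ a ∈ (Icc 1 N).filter (fun a => (∏ l ∈ T, l) ∣ a), 1 / (a : ℝ) ≤
      ∑ T ∈ (EE_P w N).powerset, EE_h T * (1 / ((∏ l ∈ T, l : ℕ) : ℝ) * EE_H N) := by
    refine sum_le_sum fun T hT => ?_
    rw [mem_powerset] at hT
    exact mul_le_mul_of_nonneg_left (EE_div N _ (EE_prod_pos hT)) (EE_h_nonneg hw hT)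
  refine h3.trans ?_
  have h4 : ∑ T ∈ (EE_P w N).powerset, EE_h T * (1 / ((∏ l ∈ T, l : ℕ) : ℝ) * EE_H N) =
      (∏ l ∈ EE_P w N, (1 + 1 / ((l : ℝ) - 2) * (1 / (l : ℝ)))) * EE_H N := by
    rw [← EE_sumT, sum_mul]
    refine sum_congr rfl fun T _ => ?_
    ring
  rw [h4]
  exact mul_le_mul_of_nonneg_right (EE_B w N hw) (EE_H_nonneg N)

theorem EE_cnt (s : ℤ) (L d : ℕ) (hd : 0 < d) :
    (((Ioc s (s + L)).filter fun c => (d : ℤ) ∣ c).card : ℝ) ≤ (L : ℝ) / d + 1 := by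
  have hd' : (0 : ℤ) < d := by exact_mod_cast hd
  have hd0 : (0 : ℝ) < d := by exact_mod_cast hd
  have h1 := Int.Ioc_filter_dvd_card s (s + L) hd'
  have h2 : ((((Ioc s (s + L)).filter fun c => (d : ℤ) ∣ c).card : ℤ) : ℝ) ≤ (L : ℝ) / d + 1 := by
    rw [h1]
    rw [Int.cast_max]
    refine max_le ?_ ?_
    · have e1 := Int.floor_le (((s + L : ℤ) : ℚ) / ((d : ℤ) : ℚ))
      have e2 := Int.lt_floor_add_one ((s : ℚ) / ((d : ℤ) : ℚ))
      have e3 : (((s + L : ℤ) : ℚ) / ((d : ℤ) : ℚ)) = (s : ℚ) / ((d : ℤ) : ℚ) + (L : ℚ) / (d : ℚ) := by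
        push_cast
        rw [add_div]
      rw [e3] at e1
      rw [e3]
      have e4 : (⌊(s : ℚ) / ((d : ℤ) : ℚ) + (L : ℚ) / (d : ℚ)⌋ : ℚ) -
          (⌊(s : ℚ) / ((d : ℤ) : ℚ)⌋ : ℚ) ≤ (L : ℚ) / (d : ℚ) + 1 := by linarith
      generalize ⌊(s : ℚ) / ((d : ℤ) : ℚ) + (L : ℚ) / (d : ℚ)⌋ = P at e4 ⊢
      generalize ⌊(s : ℚ) / ((d : ℤ) : ℚ)⌋ = Q at e4 ⊢
      have e5 : ((((P : ℚ) - (Q : ℚ)) : ℚ) : ℝ) ≤ (((L : ℚ) / (d : ℚ) + 1 : ℚ) : ℝ) :=
        Rat.cast_le.2 e4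
      push_cast at e5 ⊢
      exact e5
    · rw [Int.cast_zero]
      positivity
  exact_mod_cast h2

theorem EE_sumc (w b M : ℕ) (u : ℤ) (hw : 3 ≤ w) (hb : 1 ≤ b) (hM : 1 ≤ M) (hu : |u| ≤ M) :
    ∑ c ∈ Ioc ((b : ℤ) * u) ((b : ℤ) * (u + M)) with c ≠ 0, (Er w c.natAbs - 1) ≤
      3 * (b * M) * (1 / ((w : ℝ) - 1)) := by
  classical
  obtain ⟨X, hX⟩ : ∃ X : ℕ, X = 2 * (b * M) := ⟨_, rfl⟩
  have hbM : 0 < b * M := Nat.mul_pos hb hM
  have hbMr : (0 : ℝ) < b * M := by exact_mod_cast hbM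
  obtain ⟨S, hS⟩ : ∃ S : Finset ℤ, S = (Ioc ((b : ℤ) * u) ((b : ℤ) * (u + M))).filter fun c => c ≠ 0 :=
    ⟨_, rfl⟩
  rw [← hS]
  have hSX : ∀ c ∈ S, c ≠ 0 ∧ c.natAbs ≤ X := by
    intro c hc
    rw [hS, mem_filter, mem_Ioc] at hc
    obtain ⟨⟨h1, h2⟩, h3⟩ := hc
    refine ⟨h3, ?_⟩
    have hu' := abs_le.1 hu
    have hb' : (0 : ℤ) < b := by exact_mod_cast hb
    have h4 : -((X : ℕ) : ℤ) ≤ c := by
      rw [hX]
      push_cast
      nlinarith
    have h5 : c ≤ ((X : ℕ) : ℤ) := by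
      rw [hX]
      push_cast
      nlinarith
    omega
  have hEr : ∀ c ∈ S, Er w c.natAbs - 1 =
      ∑ T ∈ (EE_P w X).powerset.erase ∅, (if (∏ l ∈ T, l) ∣ c.natAbs then EE_h T else 0) := by
    intro c hc
    obtain ⟨h1, h2⟩ := hSX c hc
    rw [EE_er w X c.natAbs (by omega) h2]
    rw [← add_sum_erase _ _ (empty_mem_powerset (EE_P w X))]
    have h3 : (if (∏ l ∈ (∅ : Finset ℕ), l) ∣ c.natAbs then EE_h ∅ else 0) = 1 := by
      rw [prod_empty, if_pos (one_dvd _)]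
      unfold EE_h
      rw [prod_empty]
    rw [h3]
    ring
  rw [sum_congr rfl hEr, sum_comm]
  have hT : ∀ T ∈ (EE_P w X).powerset.erase ∅,
      ∑ c ∈ S, (if (∏ l ∈ T, l) ∣ c.natAbs then EE_h T else 0) ≤
        3 * (b * M) * (EE_h T * (1 / ((∏ l ∈ T, l : ℕ) : ℝ))) := by
    intro T hT
    rw [mem_erase, mem_powerset] at hT
    have hh := EE_h_nonneg hw hT.2
    obtain ⟨d, hd⟩ : ∃ d : ℕ, d = ∏ l ∈ T, l := ⟨_, rfl⟩
    have hd0 : 0 < d := by rw [hd]; exact EE_prod_pos hT.2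
    have hdr : (0 : ℝ) < d := by exact_mod_cast hd0
    rw [← hd, ← sum_filter, sum_const, nsmul_eq_mul]
    have hc : (((S.filter fun c => d ∣ c.natAbs).card : ℕ) : ℝ) ≤ 3 * (b * M) * (1 / (d : ℝ)) := by
      by_cases hdX : X < d
      · have h1 : S.filter (fun c => d ∣ c.natAbs) = ∅ := by
          rw [filter_eq_empty_iff]
          intro c hc h2
          obtain ⟨h3, h4⟩ := hSX c hc
          have h5 := Nat.le_of_dvd (by omega) h2
          omega
        rw [h1, card_empty, Nat.cast_zero]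
        positivity
      · have h1 : S.filter (fun c => d ∣ c.natAbs) ⊆
            (Ioc ((b : ℤ) * u) ((b : ℤ) * u + ((b * M : ℕ) : ℤ))).filter fun c => (d : ℤ) ∣ c := by
          intro c hc
          rw [mem_filter, hS, mem_filter, mem_Ioc] at hc
          rw [mem_filter, mem_Ioc]
          refine ⟨⟨hc.1.1.1, ?_⟩, Int.natCast_dvd.2 hc.2⟩
          have := hc.1.1.2
          push_cast
          linarith
        have h2 := EE_cnt ((b : ℤ) * u) (b * M) d hd0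
        have h3 : (((S.filter fun c => d ∣ c.natAbs).card : ℕ) : ℝ) ≤ ((b * M : ℕ) : ℝ) / d + 1 :=
          (Nat.cast_le.2 (card_le_card h1)).trans h2
        refine h3.trans ?_
        have h4 : (d : ℝ) ≤ 2 * (b * M) := by
          have : d ≤ 2 * (b * M) := by omega
          exact_mod_cast this
        have h5 : (1 : ℝ) ≤ 2 * (b * M) / d := by
          rw [le_div_iff₀ hdr]
          linarith
        push_cast
        calc (b : ℝ) * M / d + 1 ≤ (b : ℝ) * M / d + 2 * (b * M) / d := by linarith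
          _ = 3 * (b * M) * (1 / (d : ℝ)) := by ring
    calc (((S.filter fun c => d ∣ c.natAbs).card : ℕ) : ℝ) * EE_h T ≤
        (3 * (b * M) * (1 / (d : ℝ))) * EE_h T := mul_le_mul_of_nonneg_right hc hh
      _ = _ := by ring
  refine (sum_le_sum hT).trans ?_
  rw [← mul_sum]
  refine mul_le_mul_of_nonneg_left ?_ (by positivity)
  have h6 := EE_sumT w X
  rw [← add_sum_erase _ _ (empty_mem_powerset (EE_P w X))] at h6
  have h7 : EE_h ∅ * (1 / ((∏ l ∈ (∅ : Finset ℕ), l : ℕ) : ℝ)) = 1 := by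
    unfold EE_h
    rw [prod_empty, prod_empty]
    norm_num
  rw [h7] at h6
  have h8 := EE_B w X hw
  linarith

theorem EE_one_le (w n : ℕ) (hw : 3 ≤ w) : 1 ≤ Er w n := by
  unfold Er
  refine Finset.prod_induction _ (fun x : ℝ => 1 ≤ x) (fun x y hx hy => ?_) le_rfl ?_
  · nlinarith
  intro l hl
  rw [mem_filter] at hl
  have h2 : (3 : ℝ) < l := by exact_mod_cast (lt_of_le_of_lt hw hl.2)
  have h3 : 0 ≤ 1 / ((l : ℝ) - 2) := div_nonneg zero_le_one (by linarith)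
  linarith

theorem EE : EE_stmt := by
  classical
  refine ⟨14, by norm_num, ?_⟩
  intro w N M u hw hN hM hu
  have hw' : (3 : ℝ) ≤ w := by exact_mod_cast hw
  obtain ⟨β, hβ⟩ : ∃ β : ℝ, β = 1 / ((w : ℝ) - 1) := ⟨_, rfl⟩
  have hβ0 : 0 ≤ β := by
    rw [hβ]
    exact div_nonneg zero_le_one (by linarith)
  have hβ1 : β ≤ 1 / 2 := by
    rw [hβ, div_le_div_iff₀ (by linarith) (by norm_num)]
    linarith
  have hβw : β * 2 * w ≤ 3 := by
    rw [hβ, div_mul_eq_mul_div, div_mul_eq_mul_div, div_le_iff₀ (by linarith)]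
    linarith
  have hMr : (1 : ℝ) ≤ M := by exact_mod_cast hM
  -- one pair
  have hpair : ∀ a ∈ Icc 1 N, ∀ b ∈ Icc 1 N, 1 / ((a : ℝ) * (b : ℝ) ^ 2) *
      ∑ c ∈ Ioc ((b : ℤ) * u) ((b : ℤ) * (u + M)) with c ≠ 0,
        (Er w a * Er w b * Er w c.natAbs - 1) ≤
      M * ((1 + 3 * β) * ((Er w a * (1 / (a : ℝ))) * (Er w b * (1 / (b : ℝ)))) -
        (1 / (a : ℝ)) * (1 / (b : ℝ))) := by
    intro a ha b hb
    rw [mem_Icc] at ha hb
    have ha0 : (0 : ℝ) < a := by exact_mod_cast ha.1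
    have hb0 : (0 : ℝ) < b := by exact_mod_cast hb.1
    obtain ⟨E, hE⟩ : ∃ E : ℝ, E = Er w a * Er w b := ⟨_, rfl⟩
    have hE1 : 1 ≤ E := by
      rw [hE]
      have h1 := EE_one_le w a hw
      have h2 := EE_one_le w b hw
      nlinarith
    rw [← hE]
    have h1 : ∑ c ∈ Ioc ((b : ℤ) * u) ((b : ℤ) * (u + M)) with c ≠ 0, (E * Er w c.natAbs - 1) =
        ∑ c ∈ Ioc ((b : ℤ) * u) ((b : ℤ) * (u + M)) with c ≠ 0, (E - 1) +
        E * ∑ c ∈ Ioc ((b : ℤ) * u) ((b : ℤ) * (u + M)) with c ≠ 0, (Er w c.natAbs - 1) := by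
      rw [mul_sum, ← sum_add_distrib]
      refine sum_congr rfl fun c _ => ?_
      ring
    have h2 : ∑ c ∈ Ioc ((b : ℤ) * u) ((b : ℤ) * (u + M)) with c ≠ 0, (E - 1) ≤ b * M * (E - 1) := by
      rw [sum_const, nsmul_eq_mul]
      refine mul_le_mul_of_nonneg_right ?_ (by linarith)
      have h3 : (((Ioc ((b : ℤ) * u) ((b : ℤ) * (u + M))).filter fun c => c ≠ 0).card) ≤ b * M := by
        refine (card_filter_le _ _).trans ?_
        rw [Int.card_Ioc]
        have : (b : ℤ) * (u + M) - (b : ℤ) * u = ((b * M : ℕ) : ℤ) := by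
          push_cast
          ring
        rw [this, Int.toNat_natCast]
      exact_mod_cast h3
    have h3 := EE_sumc w b M u hw hb.1 hM hu
    rw [← hβ] at h3
    have h4 : E * ∑ c ∈ Ioc ((b : ℤ) * u) ((b : ℤ) * (u + M)) with c ≠ 0, (Er w c.natAbs - 1) ≤
        E * (3 * (b * M) * β) := mul_le_mul_of_nonneg_left h3 (by linarith)
    rw [h1]
    calc 1 / ((a : ℝ) * (b : ℝ) ^ 2) *
        (∑ c ∈ Ioc ((b : ℤ) * u) ((b : ℤ) * (u + M)) with c ≠ 0, (E - 1) +
        E * ∑ c ∈ Ioc ((b : ℤ) * u) ((b : ℤ) * (u + M)) with c ≠ 0, (Er w c.natAbs - 1)) ≤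
        1 / ((a : ℝ) * (b : ℝ) ^ 2) * (b * M * (E - 1) + E * (3 * (b * M) * β)) := by
          refine mul_le_mul_of_nonneg_left (add_le_add h2 h4) (by positivity)
      _ = M * ((1 + 3 * β) * ((Er w a * (1 / (a : ℝ))) * (Er w b * (1 / (b : ℝ)))) -
        (1 / (a : ℝ)) * (1 / (b : ℝ))) := by
          rw [hE]
          field_simp
          ring
  have hsum : ∑ a ∈ Icc 1 N, ∑ b ∈ Icc 1 N, 1 / ((a : ℝ) * (b : ℝ) ^ 2) *
      ∑ c ∈ Ioc ((b : ℤ) * u) ((b : ℤ) * (u + M)) with c ≠ 0,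
        (Er w a * Er w b * Er w c.natAbs - 1) ≤
      M * ((1 + 3 * β) * ((∑ a ∈ Icc 1 N, Er w a * (1 / (a : ℝ))) *
        (∑ b ∈ Icc 1 N, Er w b * (1 / (b : ℝ)))) - EE_H N * EE_H N) := by
    refine (sum_le_sum fun a ha => sum_le_sum fun b hb => hpair a ha b hb).trans (le_of_eq ?_)
    unfold EE_H
    rw [sum_mul_sum, sum_mul_sum, mul_sum, ← sum_sub_distrib, mul_sum]
    refine sum_congr rfl fun a _ => ?_
    rw [mul_sum, ← sum_sub_distrib, mul_sum]
  refine hsum.trans ?_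
  have hA := EE_suma w N hw
  rw [← hβ] at hA
  have hA0 : 0 ≤ ∑ a ∈ Icc 1 N, Er w a * (1 / (a : ℝ)) := by
    refine sum_nonneg fun a _ => ?_
    have := EE_one_le w a hw
    positivity
  have hH0 := EE_H_nonneg N
  have hH1 := EE_H_le N
  obtain ⟨A, hAd⟩ : ∃ A : ℝ, A = ∑ a ∈ Icc 1 N, Er w a * (1 / (a : ℝ)) := ⟨_, rfl⟩
  rw [← hAd] at hA hA0 ⊢
  obtain ⟨H, hHd⟩ : ∃ H : ℝ, H = EE_H N := ⟨_, rfl⟩
  rw [← hHd] at hA hH0 hH1 ⊢
  have hA2 : A * A ≤ ((1 + β) * H) * ((1 + β) * H) := mul_le_mul hA hA hA0 (by positivity)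
  have h1 : (1 + 3 * β) * (A * A) - H * H ≤ (β * (37 / 4)) * (H * H) := by
    have h2 : (1 + 3 * β) * (A * A) ≤ (1 + 3 * β) * (((1 + β) * H) * ((1 + β) * H)) :=
      mul_le_mul_of_nonneg_left hA2 (by positivity)
    have h3 : (1 + 3 * β) * (1 + β) ^ 2 - 1 ≤ β * (37 / 4) := by
      have h4 : (1 + 3 * β) * (1 + β) ^ 2 - 1 = β * (3 + (1 + 3 * β) * (2 + β)) := by ring
      rw [h4]
      refine mul_le_mul_of_nonneg_left ?_ hβ0
      nlinarith
    have h5 : 0 ≤ H * H := mul_self_nonneg H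
    have h6 := mul_le_mul_of_nonneg_right h3 h5
    nlinarith
  have h7 : β * (37 / 4) ≤ 14 / w := by
    rw [le_div_iff₀ (by linarith)]
    linarith
  have h8 : H * H ≤ (1 + Real.log N) ^ 2 := by
    rw [sq]
    exact mul_le_mul hH1 hH1 hH0 (hH0.trans hH1)
  calc (M : ℝ) * ((1 + 3 * β) * (A * A) - H * H) ≤ M * ((β * (37 / 4)) * (H * H)) :=
        mul_le_mul_of_nonneg_left h1 (by linarith)
    _ ≤ M * ((14 / w) * (1 + Real.log N) ^ 2) := by
        refine mul_le_mul_of_nonneg_left ?_ (by linarith)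
        exact mul_le_mul h7 h8 (mul_self_nonneg H) (by positivity)
    _ = 14 / w * M * (1 + Real.log N) ^ 2 := by ring

end Pool.Agent.helper11.TX
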